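import Pool.Agent.Q225.PK.Law

set_option autoImplicit false

/-!
# Random linear systems can be solved with `n² log³(n/ε)` operations

The model (in `Pool/Agent/Q225/PK/Model.lean`) is a uniform real random access
machine without floor function. The memory consists of arrays of real numbers. A program is a finite
text, a command `c : Cmd`, which does not depend on `n`. Commands are `0`, `1`, copy, `+`, `-`,
`*`, `/` for the contents of cells, composition, the test `x ≤ y` for the contents of two cells, and
loops `for v = 0, …, N - 1`, where `N` and the addresses of the cells are expressions in the loop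
variables (`+`, `-`, `*` of natural numbers). The command is executed again and again (`after`), with
the variable `0` equal to `n` and the variable `1` equal to the number of the round, until the number
in cell `(0, 0)` of array 4 is positive (`EndsAt`). The numbers are exact. `cost` counts every
operation, copy and comparison and every round of a loop as one step, `time` is the number of
steps of the whole execution. The input (`input`) is the matrix (array 0), the vector (array 1) and
`ε` (array 2), the output (`outp`) is array 3. `nrm` is the Euclidean norm.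

The algorithm is the one of `MP_2781e4_lc.ExponentZero`: with `G = A / ∑ |a_ij|`, the matrices
`R ^ (2 ^ k)`, `R = 1 - Gᵀ G`, are computed with `O(L)` bits in round `L` by repeated squaring,
where a row of a matrix of integers is packed into one number, so that the product of two matrices
with entries of `w` bits takes `O(n ^ 2 w)` operations. The number of rounds is
`O(log n + log (1 / ε) + log (∑ |a_ij| / σ_n(A)))`. It remains to show that with probability `1 - o(1)`
the smallest singular value of `A` is at least `1 / (400 n ^ 4)`. For Gaussian entries, this is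
elementary. For the two discrete ensembles, a vector with at least `n ^ (3 / 4)` large coordinates is
treated with the inequality of Littlewood, Offord and Erdős, the other vectors with a net.
-/

namespace Pool.Agent.Results.MP_9b7f10_lc.PackedSolver

open MeasureTheory ProbabilityTheory Filter Topology Matrix Pool.Agent.Q225.PK

/-- The three ensembles. -/
inductive Ensemble where
  | gaussian
  | rademacher
  | bernoulli

/-- The law of an entry: standard normal, uniform on `{-1, 1}`, uniform on `{0, 1}`. -/
noncomputable def entry : Ensemble → Measure ℝ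
  | .gaussian => gaussianReal 0 1
  | .rademacher => (1 / 2 : ENNReal) • Measure.dirac (-1) + (1 / 2 : ENNReal) • Measure.dirac 1
  | .bernoulli => (1 / 2 : ENNReal) • Measure.dirac 0 + (1 / 2 : ENNReal) • Measure.dirac 1

/-- The law of the `n × n` matrix with independent entries. -/
noncomputable def law (X : Ensemble) (n : ℕ) : Measure (Fin n → Fin n → ℝ) :=
  Measure.pi fun _ => Measure.pi fun _ => entry X

/-- The program `c` solves the system `A x = b` to accuracy `ε` in at most `T` steps. -/
def Solves (c : Cmd) {n : ℕ} (A : Matrix (Fin n) (Fin n) ℝ) (b : Fin n → ℝ) (ε T : ℝ) : Prop :=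
  ∃ t, EndsAt c n (input A b ε) t ∧
    nrm (A *ᵥ outp n (after c n (input A b ε) t) - b) ≤ ε * nrm b ∧
    (time c n (input A b ε) t : ℝ) ≤ T

theorem law_good (X : Ensemble) :
    Tendsto (fun n => law X n {M | Matrix.of M ∈ Good n}) atTop (𝓝 1) := by
  have hbern : Tendsto (fun n => ENNReal.ofReal (frac 0 1 n (Good n))) atTop (𝓝 1) := by
    simpa using ENNReal.tendsto_ofReal (frac_tendsto 0 1 (by simp) (by simp) (by simp))
  have hrad : Tendsto (fun n => ENNReal.ofReal (frac (-1) 1 n (Good n))) atTop (𝓝 1) := by
    simpa using ENNReal.tendsto_ofReal (frac_tendsto (-1) 1 (by simp) (by simp) (by norm_num))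
  cases X with
  | gaussian =>
    have h := ENNReal.tendsto_ofReal gauss_tendsto
    rw [ENNReal.ofReal_one] at h
    refine h.congr fun n => ?_
    exact ENNReal.ofReal_toReal (measure_ne_top _ _)
  | rademacher =>
    exact hrad.congr fun n => (two_valued (-1) 1 n (Good n) (good_closed n).measurableSet).symm
  | bernoulli =>
    exact hbern.congr fun n => (two_valued 0 1 n (Good n) (good_closed n).measurableSet).symm

theorem solves_good {n : ℕ} (A : Matrix (Fin n) (Fin n) ℝ) (hA : A ∈ Good n) (b : Fin n → ℝ)
    (ε : ℝ) (hε : 0 < ε) (hε1 : ε < 1) :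
    Solves roundCmd A b ε (6404 * 160 ^ 3 * (n : ℝ) ^ 2 * Real.log (n / ε) ^ 3) := by
  obtain ⟨hn, h1, h2⟩ := hA
  have hn0 : (2 : ℝ) ≤ n := by exact_mod_cast hn
  have hn1 : 1 ≤ n := by omega
  have hdet : A.det ≠ 0 := by
    intro h0
    obtain ⟨v, hv, hv0⟩ := Matrix.exists_mulVec_eq_zero_iff.mpr h0
    have h3 := h2 v
    rw [hv0] at h3
    have h4 : nrm (0 : Fin n → ℝ) = 0 := by simp [nrm]
    rw [h4, mul_zero] at h3
    exact absurd (nrm_pos hv) (not_lt.mpr h3)
  obtain ⟨t, ht, htime⟩ := ends A b ε hn1 hdet hε hε1
  refine ⟨t, ht, (correct A b ε hn1 hdet hε hε1 t ht).2, ?_⟩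
  have hσ : (0 : ℝ) < 1 / (400 * (n : ℝ) ^ 4) := by positivity
  refine (htime _ hσ (fun v => ?_)).trans ?_
  · rw [one_div, inv_mul_le_iff₀ (by positivity)]
    exact h2 v
  · have hs := absSum_pos A hn1 hdet
    have e1 : Real.log (absSum A / (1 / (400 * (n : ℝ) ^ 4))) ≤ 9 * Real.log 2 + 8 * Real.log n := by
      have h3 : absSum A / (1 / (400 * (n : ℝ) ^ 4)) ≤ 2 ^ 9 * (n : ℝ) ^ 8 := by
        rw [div_div_eq_mul_div, div_one]
        calc absSum A * (400 * (n : ℝ) ^ 4) ≤ (n : ℝ) ^ 4 * (2 ^ 9 * (n : ℝ) ^ 4) :=
              mul_le_mul h1 (by nlinarith [pow_pos (by linarith : (0 : ℝ) < n) 4])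
                (by positivity) (by positivity)
          _ = 2 ^ 9 * (n : ℝ) ^ 8 := by ring
      have h4 := Real.log_le_log (by positivity) h3
      rw [Real.log_mul (by positivity) (by positivity), Real.log_pow, Real.log_pow] at h4
      exact_mod_cast h4
    have e2 : Real.log (n / ε) = Real.log n + Real.log (1 / ε) := by
      rw [Real.log_div (by positivity) hε.ne', one_div, Real.log_inv]; ring
    have e3 : Real.log 2 ≤ Real.log n := Real.log_le_log (by norm_num) hn0
    have e4 : 0 ≤ Real.log (1 / ε) := Real.log_nonneg ((one_le_div hε).mpr hε1.le)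
    have e5 : (0.6931471803 : ℝ) < Real.log 2 := Real.log_two_gt_d9
    have e6 : 0 ≤ Real.log (absSum A / (1 / (400 * (n : ℝ) ^ 4))) := by
      refine Real.log_nonneg ?_
      rw [one_le_div hσ]
      have h5 := h2 (Pi.single ⟨0, hn1⟩ 1)
      have h6 := op_absSum A hs (Pi.single ⟨0, hn1⟩ 1)
      have h7 : 0 < nrm (Pi.single (⟨0, hn1⟩ : Fin n) (1 : ℝ) : Fin n → ℝ) := nrm_pos (by simp)
      refine le_of_mul_le_mul_right ?_ h7
      rw [one_div, inv_mul_le_iff₀ (by positivity)]
      exact h5.trans (mul_le_mul_of_nonneg_left h6 (by positivity))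
    calc 6404 * (n : ℝ) ^ 2 * (8 * (1 + Real.log n + Real.log (1 / ε) +
          Real.log (absSum A / (1 / (400 * (n : ℝ) ^ 4))))) ^ 3
        ≤ 6404 * (n : ℝ) ^ 2 * (8 * (20 * Real.log (n / ε))) ^ 3 := by
          refine mul_le_mul_of_nonneg_left ?_ (by positivity)
          refine pow_le_pow_left₀ (by linarith) ?_ 3
          rw [e2]
          linarith
      _ = _ := by ring

/-- (1) There are a program `c`, a constant `C` and measurable sets `E n` of `n × n` matrices
whose probability tends to `1` for each of the three ensembles, such that `c` solves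
`A x = b` to accuracy `ε` in at most `C n ^ 2 log (n / ε) ^ 3` steps, for all `A ∈ E n`, `b` and
`0 < ε < 1`.
(2) Hence the question has a positive answer for each ensemble and every real number `ω > 2`. -/
theorem result :
    (∃ (c : Cmd) (C : ℝ) (E : ∀ n : ℕ, Set (Fin n → Fin n → ℝ)),
      (∀ n, MeasurableSet (E n)) ∧
      (∀ X : Ensemble, Tendsto (fun n => law X n (E n)) atTop (𝓝 1)) ∧
      ∀ (n : ℕ) (A : Fin n → Fin n → ℝ), A ∈ E n → ∀ (b : Fin n → ℝ) (ε : ℝ), 0 < ε → ε < 1 →
        Solves c (Matrix.of A) b ε (C * (n : ℝ) ^ 2 * Real.log (n / ε) ^ 3)) ∧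
    ∀ (X : Ensemble) (ω : ℝ), 2 < ω →
      ∃ (δ : ℝ) (C : ℝ) (k : ℕ) (E : ∀ n : ℕ, Set (Fin n → Fin n → ℝ)) (c : Cmd),
        0 < δ ∧ (∀ n, MeasurableSet (E n)) ∧ Tendsto (fun n => law X n (E n)) atTop (𝓝 1) ∧
        ∀ (n : ℕ) (A : Fin n → Fin n → ℝ), A ∈ E n → ∀ (b : Fin n → ℝ) (ε : ℝ), 0 < ε → ε < 1 →
          Solves c (Matrix.of A) b ε (C * (n : ℝ) ^ (ω - δ) * Real.log (n / ε) ^ k) := by
  refine ⟨⟨roundCmd, 6404 * 160 ^ 3, fun n => {M | Matrix.of M ∈ Good n},
    fun n => (good_closed n).measurableSet, law_good, fun n A hA b ε hε hε1 =>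
      solves_good (Matrix.of A) hA b ε hε hε1⟩, ?_⟩
  intro X ω hω
  refine ⟨ω - 2, 6404 * 160 ^ 3, 3, fun n => {M | Matrix.of M ∈ Good n}, roundCmd, by linarith,
    fun n => (good_closed n).measurableSet, law_good X, fun n A hA b ε hε hε1 => ?_⟩
  have e : (n : ℝ) ^ (ω - (ω - 2)) = (n : ℝ) ^ 2 := by
    rw [sub_sub_cancel]
    exact Real.rpow_two _
  rw [e]
  exact solves_good (Matrix.of A) hA b ε hε hε1

end Pool.Agent.Results.MP_9b7f10_lc.PackedSolver
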